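import Pool.Agent.Lib.MP_acf5a6_lc.Hy.Defs

/-!
Exact eigenvalues of symmetric tensors and approximate singular values as languages of bit strings.
-/

set_option autoImplicit false

namespace Pool.Agent.Lib.MP_acf5a6_lc

open Classical in
/-- Symmetric Eigenvalue: binary codes (as for `TSV`) of pairs `(T, σ)` with `T` a symmetric
rational tensor and `σ` a positive rational number that is an eigenvalue of `T`. -/
noncomputable def SEV : N68a2faeb.DecisionProblem := fun s =>
  decide (∃ (d : ℕ) (T : Fin d → Fin d → Fin d → ℚ) (σ : ℚ),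
    s = N487b59b3.bitEncode
      ((List.ofFn fun i => List.ofFn fun j => List.ofFn fun k => T i j k), σ) ∧
    (∀ i j k, T i j k = T j i k) ∧ (∀ i j k, T i j k = T i k j) ∧ 0 < σ ∧ IsEigenvalue T σ)

open Classical in
/-- Approximate Tensor Singular Value: binary codes (as for `TSV`) of pairs `(T, σ)` with `σ` a
positive rational number such that some real singular value of `T` is within `σ / 50` of `σ`. -/
noncomputable def ATSV : N68a2faeb.DecisionProblem := fun s =>
  decide (∃ (d : ℕ) (T : Fin d → Fin d → Fin d → ℚ) (σ : ℚ),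
    s = N487b59b3.bitEncode
      ((List.ofFn fun i => List.ofFn fun j => List.ofFn fun k => T i j k), σ) ∧
    0 < σ ∧ ∃ τ : ℝ, |τ - σ| ≤ σ / 50 ∧ IsSingularValue T τ)

end Pool.Agent.Lib.MP_acf5a6_lc
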