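import Pool.Agent.Lib.MP_acf5a6_lc.Gp.Main

/-!
The eigenvalue equations of the tensor of a system of quadrics.
-/

set_option autoImplicit false

namespace Pool.Agent.Lib.MP_acf5a6_lc.Gp

open Finset

theorem sv_congr {n : ℕ} {E : List QF} (hE : Bdd n E) (r : ℕ) {a u : ℕ → ℝ} {α : ℝ}
    (h : ∀ i < n, a i = α * u i) : sv (E.getD r []) a u = α * sv (E.getD r []) u u := by
  have hq : ∀ t ∈ E.getD r [], t.2.1 < n ∧ t.2.2 < n := by
    rcases lt_or_ge r E.length with hr | hr
    · rw [List.getD_eq_getElem _ _ hr]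
      exact hE _ (List.getElem_mem _)
    · rw [List.getD_eq_default _ _ hr]
      simp
  have e1 : ev (E.getD r []) a u = ev (E.getD r []) (fun i => α * u i) fun i => 1 * u i :=
    ev_congr fun t ht => ⟨h _ (hq t ht).1, (one_mul _).symm⟩
  have e2 : ev (E.getD r []) u a = ev (E.getD r []) (fun i => 1 * u i) fun i => α * u i :=
    ev_congr fun t ht => ⟨(one_mul _).symm, h _ (hq t ht).2⟩
  rw [sv, sv, e1, e2, ev_smul, ev_smul]
  ring

theorem core {D τ s t X L A : ℝ} (hD : 0 < D) (hτ : |τ - 64 * D| ≤ 64 * D / 50) (hX : 0 ≤ X)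
    (hL : 0 ≤ L) (h1 : X + s * s + t * t + L = 1) (es : 2 * D * (24 - 6 * s ^ 2) = τ * s)
    (et : 2 * D * (3 * t ^ 2 + L) = (τ - 96 * D * s) * t)
    (el : A + 4 * D * t * L = (τ - 96 * D * s) * L) (ex : 2 * A = (τ - 96 * D * s) * X) :
    t = 0 ∧ L = 0 ∧ X ≠ 0 := by
  obtain ⟨μ, rfl⟩ : ∃ μ, τ = μ * (2 * D) := ⟨τ / (2 * D), by field_simp⟩
  obtain ⟨B, rfl⟩ : ∃ B, A = B * (2 * D) := ⟨A / (2 * D), by field_simp⟩
  obtain ⟨m1, m2⟩ := abs_le.1 hτ
  have hD2 : 0 < 2 * D := by positivity
  have m3 : 31.36 ≤ μ := le_of_mul_le_mul_right (by linarith) hD2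
  have m4 : μ ≤ 32.64 := le_of_mul_le_mul_right (by linarith) hD2
  have fs : 24 - 6 * s ^ 2 = μ * s := mul_left_cancel₀ hD2.ne' (by linear_combination es)
  have ft : 3 * t ^ 2 + L = (μ - 48 * s) * t := mul_left_cancel₀ hD2.ne' (by linear_combination et)
  have fl : B + 2 * t * L = (μ - 48 * s) * L := mul_left_cancel₀ hD2.ne' (by linear_combination el)
  have fx : 2 * B = (μ - 48 * s) * X := mul_left_cancel₀ hD2.ne' (by linear_combination ex)
  have s0 : s ^ 2 ≤ 1 := by nlinarith [mul_self_nonneg t]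
  have s1 : 0 < s := by
    by_contra h
    nlinarith
  have s2 : 0.65 ≤ s := by
    by_contra h
    nlinarith
  have s3 : s ≤ 0.68 := by
    by_contra h
    nlinarith
  have k1 : -1.3 ≤ μ - 48 * s := by linarith
  have k2 : μ - 48 * s ≤ 1.3 := by
    have : 0.655 ≤ s := by
      by_contra h
      nlinarith
    linarith
  generalize μ - 48 * s = k at *
  have r1 : 0.53 ≤ X + t * t + L := by nlinarith
  by_cases hk : k = 0
  · subst hk
    have h2 : L = 0 := by nlinarith [sq_nonneg t]
    have h3 : t = 0 := by nlinarith [sq_nonneg t]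
    refine ⟨h3, h2, fun h => ?_⟩
    rw [h, h2, h3] at r1
    norm_num at r1
  · exfalso
    have k3 : 0 < k ^ 2 := by positivity
    have k4 : 0 ≤ k * t := by nlinarith [sq_nonneg t]
    have k5 : X ≤ 2 * L := le_of_mul_le_mul_left (a := k ^ 2) (by
      nlinarith [mul_nonneg k4 hL]) k3
    have k6 : k ^ 2 ≤ 1.69 := by nlinarith
    nlinarith [sq_nonneg (16 * t - 3 * k)]

theorem proj_of_weak {n : ℕ} {E : List QF} (hE : Bdd n E) {u : ℕ → ℝ} {τ : ℝ}
    (hτ : |τ - 64 * scale E| ≤ 64 * scale E / 50) (hu : ip 0 (n + 2 + E.length) u u = 1)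
    (W : ∀ a, pc (sl n E) a u u + pc (sl n E) u a u + pc (sl n E) u a u =
      τ * ip 0 (n + 2 + E.length) a u) : Proj n E := by
  have hD : (0 : ℝ) < scale E := by exact_mod_cast scale_pos E
  have key : ∀ (α β γ : ℝ) (l : ℕ → ℝ),
      β * (2 * scale E * (24 - 18 * (u n * u n))) +
        γ * (2 * scale E * (u (n + 1) * u (n + 1) + ip (n + 2) E.length u u)) +
        ∑ r ∈ range E.length, l r * sv (E.getD r []) u u +
        2 * (u n * (2 * scale E * (24 * (α * ip 0 n u u + β * u n + γ * u (n + 1) +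
          ∑ r ∈ range E.length, l r * u (n + 2 + r)) - 18 * (β * u n))) +
        u (n + 1) * (2 * scale E * (γ * u (n + 1) + ∑ r ∈ range E.length, l r * u (n + 2 + r))) +
        α * ∑ r ∈ range E.length, u (n + 2 + r) * sv (E.getD r []) u u) =
      τ * (α * ip 0 n u u + β * u n + γ * u (n + 1) +
        ∑ r ∈ range E.length, l r * u (n + 2 + r)) := by
    intro α β γ l
    obtain ⟨a, a1, a2, a3, a4⟩ : ∃ a : ℕ → ℝ, (∀ i < n, a i = α * u i) ∧ a n = β ∧
        a (n + 1) = γ ∧ ∀ r, a (n + 2 + r) = l r := by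
      refine ⟨fun i => if i < n then α * u i else if i = n then β else if i = n + 1 then γ else
        l (i - (n + 2)), fun i hi => if_pos hi, by simp, by simp, fun r => ?_⟩
      simp only
      rw [if_neg (by omega), if_neg (by omega), if_neg (by omega), Nat.add_sub_cancel_left]
    have e1 : ip 0 n a u = α * ip 0 n u u := by
      simp only [ip, zero_add, mul_sum]
      exact sum_congr rfl fun i hi => by rw [a1 i (mem_range.1 hi), mul_assoc]
    have e2 : ip (n + 2) E.length a u = ∑ r ∈ range E.length, l r * u (n + 2 + r) := by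
      simp only [ip, a4]
    have e3 : ∑ r ∈ range E.length, u (n + 2 + r) * sv (E.getD r []) a u =
        α * ∑ r ∈ range E.length, u (n + 2 + r) * sv (E.getD r []) u u := by
      rw [mul_sum]
      exact sum_congr rfl fun r _ => by rw [sv_congr hE r a1]; ring
    have h := W a
    rw [pc_sl, pc_sl, hu, ip_split n E.length a u, e1, e2, e3, a2, a3] at h
    simp only [a4] at h
    linear_combination h
  have es := key 0 1 0 0
  have et := key 0 0 1 0
  have ex := key 1 0 0 0
  have el := key 0 0 0 fun r => u (n + 2 + r)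
  have eq := key 0 0 0 fun r => sv (E.getD r []) u u
  simp only [Pi.zero_apply, zero_mul, sum_const_zero] at es et ex
  have e0 : ∑ r ∈ range E.length, u (n + 2 + r) * u (n + 2 + r) = ip (n + 2) E.length u u := rfl
  rw [e0] at el
  obtain ⟨h1, h2, h3⟩ := core (s := u n) (t := u (n + 1))
    (A := ∑ r ∈ range E.length, u (n + 2 + r) * sv (E.getD r []) u u) hD hτ (ip_nonneg 0 n u)
    (ip_nonneg (n + 2) E.length u) (by rw [← ip_split, hu]) (by linear_combination es)
    (by linear_combination et) (by linear_combination el) (by linear_combination ex)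
  have h4 : ∀ r ∈ range E.length, u (n + 2 + r) = 0 := fun r hr => mul_self_eq_zero.1
    ((sum_eq_zero_iff_of_nonneg fun _ _ => mul_self_nonneg _).1 h2 r hr)
  have h5 : ∑ r ∈ range E.length, sv (E.getD r []) u u * u (n + 2 + r) = 0 :=
    sum_eq_zero fun r hr => by rw [h4 r hr, mul_zero]
  rw [h5] at eq
  have h6 : ∑ r ∈ range E.length, sv (E.getD r []) u u * sv (E.getD r []) u u = 0 := by
    linear_combination eq
  refine ⟨u, ?_, fun q hq => ?_⟩
  · by_contra h
    push Not at h
    exact h3 (sum_eq_zero fun i hi => by rw [zero_add, h i (mem_range.1 hi), mul_zero])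
  · obtain ⟨r, hr, rfl⟩ := List.getElem_of_mem hq
    have h7 := mul_self_eq_zero.1
      ((sum_eq_zero_iff_of_nonneg fun _ _ => mul_self_nonneg _).1 h6 r (mem_range.2 hr))
    rw [List.getD_eq_getElem _ _ hr, sv] at h7
    linarith

theorem weak_of_proj {n : ℕ} {E : List QF} (hE : Bdd n E) (h : Proj n E) :
    ∃ u : ℕ → ℝ, ip 0 (n + 2 + E.length) u u = 1 ∧
      ∀ a, pc (sl n E) a u u + pc (sl n E) u a u + pc (sl n E) u a u =
        64 * scale E * ip 0 (n + 2 + E.length) a u := by
  obtain ⟨v, ⟨i, hi, hv⟩, h⟩ := h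
  have h1 : 0 < ip 0 n v v := lt_of_lt_of_le (mul_self_pos.2 (by rwa [zero_add]))
    (single_le_sum (f := fun r => v (0 + r) * v (0 + r)) (fun _ _ => mul_self_nonneg _)
      (mem_range.2 hi))
  obtain ⟨c, hc⟩ : ∃ c : ℝ, c * c * ip 0 n v v = 5 / 9 :=
    ⟨√(5 / 9 / ip 0 n v v), by rw [Real.mul_self_sqrt (by positivity)]; field_simp⟩
  obtain ⟨u, u1, u2, u3⟩ : ∃ u : ℕ → ℝ, (∀ i < n, u i = c * v i) ∧ u n = 2 / 3 ∧
      ∀ i, n < i → u i = 0 :=
    ⟨fun i => if i < n then c * v i else if i = n then 2 / 3 else 0, fun i hi => if_pos hi,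
      by simp, fun i hi => by simp only; rw [if_neg (by omega), if_neg (by omega)]⟩
  have u4 : u (n + 1) = 0 := u3 _ (by omega)
  have u5 : ∀ r, u (n + 2 + r) = 0 := fun r => u3 _ (by omega)
  have e1 : ∀ a, ip (n + 2) E.length a u = 0 := fun a => by
    simp only [ip, u5, mul_zero, sum_const_zero]
  have e2 : ip 0 (n + 2 + E.length) u u = 1 := by
    have : ip 0 n u u = c * c * ip 0 n v v := by
      simp only [ip, zero_add, mul_sum]
      exact sum_congr rfl fun i hi => by rw [u1 i (mem_range.1 hi)]; ring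
    rw [ip_split, this, hc, e1, u2, u4]
    norm_num
  have e3 : ∀ r ∈ range E.length, sv (E.getD r []) u u = 0 := fun r hr => by
    rw [mem_range] at hr
    rw [List.getD_eq_getElem _ _ hr]
    have hq := List.getElem_mem hr
    have : ev E[r] u u = ev E[r] (fun i => c * v i) fun i => c * v i :=
      ev_congr fun t ht => ⟨u1 _ (hE _ hq t ht).1, u1 _ (hE _ hq t ht).2⟩
    rw [sv, this, ev_smul, h _ hq, mul_zero, add_zero]
  refine ⟨u, e2, fun a => ?_⟩
  have e4 : ∑ r ∈ range E.length, a (n + 2 + r) * sv (E.getD r []) u u = 0 :=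
    sum_eq_zero fun r hr => by rw [e3 r hr, mul_zero]
  rw [pc_sl, pc_sl, e2, e4, e1, e1, u2, u4]
  simp only [u5, zero_mul, sum_const_zero]
  ring

theorem ip_fin {n : ℕ} {E : List QF} (a b : ℕ → ℝ) :
    ∑ i : Fin (sl n E).length, a i * b i = ip 0 (n + 2 + E.length) a b := by
  rw [Fin.sum_univ_eq_sum_range (fun i => a i * b i), sl_length]
  simp only [ip, zero_add]

theorem eigen_of_proj {n : ℕ} {E : List QF} (hE : Bdd n E) (h : Proj n E) :
    IsEigenvalue (symT (sl n E)) (64 * scale E) := by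
  obtain ⟨u, h1, h2⟩ := weak_of_proj hE h
  refine ⟨fun i => u i, by simp only [sq, ip_fin, h1], tr_weak.2 fun a => ?_⟩
  have e := tr_symT (sl_bdd hE) (ext a) u u
  have e' := ip_fin (n := n) (E := E) (ext a) u
  simp only [ext_val] at e e'
  rw [e', ← h2, ← e]

theorem ext_abs {d : ℕ} (w : Fin d → ℝ) (i : ℕ) : |ext w i| ≤ √(∑ j, w j ^ 2) := by
  rw [ext]
  split_ifs with h
  · exact Real.abs_le_sqrt
      (single_le_sum (f := fun j => w j ^ 2) (fun _ _ => sq_nonneg _) (mem_univ _))
  · rw [abs_zero]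
    exact Real.sqrt_nonneg _

theorem proj_of_singular {n : ℕ} {E : List QF} (hE : Bdd n E) {τ : ℝ}
    (hτ : |τ - 64 * scale E| ≤ 64 * scale E / 50) (h : IsSingularValue (symT (sl n E)) τ) :
    Proj n E := by
  have hD : (0 : ℝ) < scale E := by exact_mod_cast scale_pos E
  have e0 : ∀ w : Fin (sl n E).length → ℝ,
      ∑ i, w i ^ 2 = ip 0 (n + 2 + E.length) (ext w) (ext w) := fun w => by
    simp only [← ip_fin, ext_val, sq]
  obtain ⟨u, h1, h2⟩ := eigen_of_singular (c := 60 * scale E) (symT_12 _) (symT_23 _)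
    (by linarith [(abs_le.1 hτ).1]) (fun z hz => by
      obtain ⟨ε, he, hs⟩ : ∃ ε : ℝ, ε ^ 2 = 1 ∧ 0 ≤ ε * ext z n := by
        rcases le_total 0 (ext z n) with h | h
        exacts [⟨1, by norm_num, by linarith⟩, ⟨-1, by norm_num, by linarith⟩]
      refine ⟨ε, he, fun w => ?_⟩
      have e := tr_symT (sl_bdd hE) (ext w) (ext w) (ext z)
      simp only [ext_val] at e
      rw [e0, show tr (symT (sl n E)) w w z = _ from e]
      exact lower n E he hs (by rw [← e0, hz])
        (fun i => by simpa only [hz, Real.sqrt_one] using ext_abs z i)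
        fun i => by rw [← e0]; exact ext_abs w i) h
  refine proj_of_weak hE hτ (u := ext u) (by rw [← e0, h1]) fun a => ?_
  have e := tr_weak.1 h2 fun i => a i
  rw [← tr_symT (sl_bdd hE), ← ip_fin]
  simpa only [ext_val] using e

end Pool.Agent.Lib.MP_acf5a6_lc.Gp
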