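import Pool.Agent.Lib.MP_acf5a6_lc.Gp.Sym

/-!
The tensor of a system of quadrics: a fixed number is an eigenvalue if the quadrics have a common
zero, and no singular value is near it otherwise.
-/

set_option autoImplicit false

namespace Pool.Agent.Lib.MP_acf5a6_lc.Gp

open Finset

/-- The slices: none for the variables of the system, then two diagonal ones, then the system. -/
def slices (n d m : ℕ) (D : ℤ) (E : List QF) : List QF :=
  ((List.range n).map fun _ => []) ++
    (((-18 * D, n, n) :: (List.range d).map fun i => (24 * D, i, i)) ::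
      ((List.range m).map fun r => (D, n + 1 + r, n + 1 + r)) :: E)

/-- The scale. -/
def scale (E : List QF) : ℤ := ((3 * (E.map nrm).sum + 1 : ℕ) : ℤ)

/-- The slices with their parameters. -/
def sl (n : ℕ) (E : List QF) : List QF := slices n (n + 2 + E.length) (E.length + 1) (scale E) E

/-- The inner product on the block of length `m` that starts at `k`. -/
def ip (k m : ℕ) (b c : ℕ → ℝ) : ℝ := ∑ r ∈ range m, b (k + r) * c (k + r)

theorem sl_length (n : ℕ) (E : List QF) : (sl n E).length = n + 2 + E.length := by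
  simp only [sl, slices, List.length_append, List.length_map, List.length_range, List.length_cons]
  omega

theorem sl_bdd {n : ℕ} {E : List QF} (hE : Bdd n E) : Bdd (sl n E).length (sl n E) := by
  rw [sl_length]
  intro q hq t ht
  simp only [sl, slices, List.mem_append, List.mem_map, List.mem_cons] at hq
  rcases hq with ⟨_, -, rfl⟩ | rfl | rfl | hq
  · simp at ht
  · simp only [List.mem_cons, List.mem_map, List.mem_range] at ht
    rcases ht with rfl | ⟨i, hi, rfl⟩ <;> simp only <;> omega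
  · simp only [List.mem_map, List.mem_range] at ht
    obtain ⟨i, hi, rfl⟩ := ht
    simp only
    omega
  · have := hE q hq t ht
    omega

theorem ev_dg (c : ℤ) (g : ℕ → ℕ) (m : ℕ) (x y : ℕ → ℝ) :
    ev ((List.range m).map fun i => (c, g i, g i)) x y =
      c * ∑ i ∈ range m, x (g i) * y (g i) := by
  induction m with
  | zero => simp
  | succ m ih =>
    rw [sum_range_succ, mul_add, ← ih, List.range_succ]
    simp [ev, mul_assoc]

theorem ip_comm (k m : ℕ) (b c : ℕ → ℝ) : ip k m b c = ip k m c b :=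
  sum_congr rfl fun _ _ => mul_comm _ _

theorem ip_nonneg (k m : ℕ) (b : ℕ → ℝ) : 0 ≤ ip k m b b :=
  sum_nonneg fun _ _ => mul_self_nonneg _

theorem sum_split (n m : ℕ) (f : ℕ → ℝ) : ∑ i ∈ range (n + 2 + m), f i =
    ∑ i ∈ range n, f i + f n + f (n + 1) + ∑ r ∈ range m, f (n + 2 + r) := by
  rw [sum_range_add, sum_range_succ, sum_range_succ]

theorem ip_split (n m : ℕ) (b c : ℕ → ℝ) : ip 0 (n + 2 + m) b c =
    ip 0 n b c + b n * c n + b (n + 1) * c (n + 1) + ip (n + 2) m b c := by
  simp only [ip, zero_add]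
  exact sum_split n m fun i => b i * c i

theorem pc_sl (n : ℕ) (E : List QF) (a b c : ℕ → ℝ) : pc (sl n E) a b c =
    a n * (2 * scale E * (24 * ip 0 (n + 2 + E.length) b c - 18 * (b n * c n))) +
      a (n + 1) * (2 * scale E * (b (n + 1) * c (n + 1) + ip (n + 2) E.length b c)) +
      ∑ r ∈ range E.length, a (n + 2 + r) * sv (E.getD r []) b c := by
  have l0 : ((List.range n).map fun _ => ([] : QF)).length = n := by simp
  have g : ∀ r, (sl n E).getD (n + r) [] = (((-18 * scale E, n, n) ::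
      (List.range (n + 2 + E.length)).map fun i => (24 * scale E, i, i)) ::
      ((List.range (E.length + 1)).map fun r => (scale E, n + 1 + r, n + 1 + r)) :: E).getD r [] :=
    fun r => by
      rw [sl, slices, List.getD_append_right _ _ _ _ (by omega), l0, Nat.add_sub_cancel_left]
  have e0 : ∑ i ∈ range n, a i * sv ((sl n E).getD i []) b c = 0 :=
    sum_eq_zero fun i hi => by
      rw [sl, slices, List.getD_append _ _ _ _ (by rw [l0]; exact mem_range.1 hi)]
      simp [sv, List.getD_eq_getElem?_getD, mem_range.1 hi]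
  have e1 := g 0
  have e2 := g 1
  rw [add_zero, List.getD_cons_zero] at e1
  rw [List.getD_cons_succ, List.getD_cons_zero] at e2
  have e3 : ∀ r, (sl n E).getD (n + 2 + r) [] = E.getD r [] := fun r => by
    rw [add_assoc, add_comm 2 r, g, List.getD_cons_succ, List.getD_cons_succ]
  have e4 : ∀ x y : ℕ → ℝ, ∑ i ∈ range (E.length + 1), x (n + 1 + i) * y (n + 1 + i) =
      x (n + 1) * y (n + 1) + ip (n + 2) E.length x y := fun x y => by
    rw [sum_range_succ', add_comm, ip]
    congr 1
    exact sum_congr rfl fun i _ => by rw [show n + 1 + (i + 1) = n + 2 + i by omega]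
  have e5 : ∀ x y : ℕ → ℝ, ∑ i ∈ range (n + 2 + E.length), x i * y i =
      ip 0 (n + 2 + E.length) x y := fun x y => by simp only [ip, zero_add]
  rw [pc, sl_length, sum_split, e0, e1, e2]
  simp only [e3]
  rw [sv, sv, ev_cons, ev_cons, ev_dg _ (fun i => i), ev_dg _ (fun i => i),
    ev_dg _ (fun i => n + 1 + i), ev_dg _ (fun i => n + 1 + i), e4, e4, e5, e5, ip_comm 0 _ c b,
    ip_comm (n + 2) _ c b]
  push_cast
  ring

theorem ev_abs (q : QF) {b c : ℕ → ℝ} {β γ : ℝ} (hb : ∀ i, |b i| ≤ β) (hc : ∀ i, |c i| ≤ γ) :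
    |ev q b c| ≤ nrm q * (β * γ) := by
  induction q with
  | nil => simp [nrm]
  | cons t q ih =>
    rw [ev_cons]
    refine (abs_add_le _ _).trans ?_
    have e : (nrm (t :: q) : ℝ) = |(t.1 : ℝ)| + nrm q := by
      simp [nrm, Nat.cast_natAbs]
    rw [e, add_mul, abs_mul, abs_mul, mul_assoc]
    have := (abs_nonneg _).trans (hb 0)
    gcongr
    exacts [hb _, hc _]

theorem sum_getD (E : List QF) (f : QF → ℝ) :
    ∑ r ∈ range E.length, f (E.getD r []) = (E.map f).sum := by
  induction E with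
  | nil => simp
  | cons q E ih =>
    rw [List.length_cons, sum_range_succ', List.map_cons, List.sum_cons, add_comm, ← ih]
    rfl

theorem sys_abs (k : ℕ) (E : List QF) {a b c : ℕ → ℝ} {α β γ : ℝ} (ha : ∀ i, |a i| ≤ α)
    (hb : ∀ i, |b i| ≤ β) (hc : ∀ i, |c i| ≤ γ) :
    3 * |∑ r ∈ range E.length, a (k + r) * sv (E.getD r []) b c| ≤
      2 * scale E * (α * (β * γ)) := by
  have h0 := (abs_nonneg _).trans (ha 0)
  have h1 := mul_nonneg ((abs_nonneg _).trans (hb 0)) ((abs_nonneg _).trans (hc 0))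
  have h2 : |∑ r ∈ range E.length, a (k + r) * sv (E.getD r []) b c| ≤
      ∑ r ∈ range E.length, (nrm (E.getD r []) : ℝ) * (2 * (α * (β * γ))) := by
    refine (abs_sum_le_sum_abs _ _).trans (sum_le_sum fun r _ => ?_)
    have h3 := ev_abs (E.getD r []) hb hc
    have h4 := ev_abs (E.getD r []) hc hb
    have h5 : |sv (E.getD r []) b c| ≤ 2 * (nrm (E.getD r []) * (β * γ)) := by
      refine (abs_add_le _ _).trans ?_
      rw [mul_comm γ] at h4
      linarith
    rw [abs_mul]
    refine (mul_le_mul (ha _) h5 (abs_nonneg _) h0).trans_eq ?_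
    ring
  rw [← sum_mul, sum_getD E fun q => (nrm q : ℝ)] at h2
  have e : (scale E : ℝ) = 3 * (E.map fun q => (nrm q : ℝ)).sum + 1 := by
    simp [scale, Function.comp_def]
  rw [e]
  nlinarith [mul_nonneg h0 h1]

theorem scale_pos (E : List QF) : 0 < scale E := by
  rw [scale]
  positivity

theorem ip_sq (k m : ℕ) (w z : ℕ → ℝ) (s : ℝ) :
    ∑ r ∈ range m, (w (k + r) + s * z (k + r)) ^ 2 =
      ip k m w w + 2 * s * ip k m w z + s ^ 2 * ip k m z z := by
  simp only [ip, mul_sum, ← sum_add_distrib]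
  exact sum_congr rfl fun r _ => by ring

theorem lower (n : ℕ) (E : List QF) {z w : ℕ → ℝ} {ε : ℝ} (he : ε ^ 2 = 1) (hs : 0 ≤ ε * z n)
    (hz : ip 0 (n + 2 + E.length) z z = 1) (z1 : ∀ i, |z i| ≤ 1)
    (w1 : ∀ i, |w i| ≤ √(ip 0 (n + 2 + E.length) w w)) :
    -(60 * scale E * ip 0 (n + 2 + E.length) w w) ≤
      ε * (pc (sl n E) w w z + pc (sl n E) w w z + pc (sl n E) z w w) := by
  have hD : (0 : ℝ) < scale E := by exact_mod_cast scale_pos E
  have hN := ip_nonneg 0 (n + 2 + E.length) w
  have q1 := sys_abs (n + 2) E w1 w1 z1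
  have q2 := sys_abs (n + 2) E z1 w1 w1
  rw [mul_one, Real.mul_self_sqrt hN] at q1
  rw [one_mul, Real.mul_self_sqrt hN] at q2
  have s1 := single_le_sum (f := fun r => (w (0 + r) + ε * w n * z (0 + r)) ^ 2)
    (fun _ _ => sq_nonneg _) (mem_range.2 (by omega : n < n + 2 + E.length))
  rw [ip_sq, hz, zero_add] at s1
  have s2 : 0 ≤ ∑ r ∈ range E.length, (w (n + 2 + r) + ε * w (n + 1) * z (n + 2 + r)) ^ 2 :=
    sum_nonneg fun _ _ => sq_nonneg _
  rw [ip_sq] at s2
  have p1 := ip_split n E.length w w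
  have p2 := ip_split n E.length z z
  have n1 := ip_nonneg 0 n w
  have n2 := ip_nonneg 0 n z
  have n3 := ip_nonneg (n + 2) E.length w
  have ae : |ε| = 1 := by rw [← sq_eq_sq₀ (abs_nonneg _) zero_le_one, sq_abs, he, one_pow]
  have t1 : -1 ≤ ε * z (n + 1) := (abs_le.1 (by rw [abs_mul, ae, one_mul]; exact z1 _)).1
  rw [pc_sl, pc_sl]
  generalize ∑ r ∈ range E.length, w (n + 2 + r) * sv (E.getD r []) w z = A at *
  generalize ∑ r ∈ range E.length, z (n + 2 + r) * sv (E.getD r []) w w = B at *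
  have a1 : -|A| ≤ ε * A := (abs_le.1 (by rw [abs_mul, ae, one_mul])).1
  have a2 : -|B| ≤ ε * B := (abs_le.1 (by rw [abs_mul, ae, one_mul])).1
  generalize ip 0 (n + 2 + E.length) w w = N at *
  generalize ip 0 (n + 2 + E.length) w z = R at *
  generalize ip (n + 2) E.length w w = L at *
  generalize ip (n + 2) E.length w z = M at *
  generalize ip (n + 2) E.length z z = K at *
  generalize (scale E : ℝ) = D at *
  have b1 : 0 ≤ ε * z n * (24 * N - 6 * w n ^ 2) :=
    mul_nonneg hs (by nlinarith [mul_self_nonneg (w (n + 1))])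
  have b2 : -N ≤ 2 * ε * w n * (R - w n * z n) := by
    have : (w n + ε * w n * z n) ^ 2 = w n ^ 2 + 2 * ε * w n ^ 2 * z n + (w n * z n) ^ 2 := by
      linear_combination (w n * z n) ^ 2 * he
    have h : (ε * w n) ^ 2 = w n ^ 2 := by rw [mul_pow, he, one_mul]
    nlinarith [sq_nonneg (w n * z n)]
  have b3 : -(3 * N) ≤ ε * z (n + 1) * (3 * w (n + 1) ^ 2 + L) := by
    nlinarith [mul_self_nonneg (w n), sq_nonneg (w (n + 1))]
  have b4 : -N ≤ 2 * ε * w (n + 1) * M := by
    have h : (ε * w (n + 1)) ^ 2 = w (n + 1) ^ 2 := by rw [mul_pow, he, one_mul]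
    have h' : K ≤ 1 := by nlinarith [mul_self_nonneg (z n), mul_self_nonneg (z (n + 1))]
    nlinarith [mul_self_nonneg (w n), sq_nonneg (w (n + 1))]
  have b5 : 0 ≤ D * (ε * z n * (24 * N - 6 * w n ^ 2) + 24 * (2 * ε * w n * (R - w n * z n) + N) +
      (ε * z (n + 1) * (3 * w (n + 1) ^ 2 + L) + 3 * N) + (2 * ε * w (n + 1) * M + N)) :=
    mul_nonneg hD.le (by linarith)
  have b6 := mul_nonneg hD.le hN
  linarith

end Pool.Agent.Lib.MP_acf5a6_lc.Gp
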