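import Pool.Agent.Lib.MP_acf5a6_lc.Gp.Eig
import Pool.Agent.Lib.MP_acf5a6_lc.Forward

/-!
The polynomial-time reduction from ETR with a constant gap.
-/

set_option autoImplicit false

namespace Pool.Agent.Lib.MP_acf5a6_lc.Gp

open N487b59b3

/-- The array of the symmetric tensor with the given slices. -/
def arr (F : List QF) : List (List (List ℚ)) :=
  F.zipIdx.map fun u => F.zipIdx.map fun v => F.zipIdx.map fun w =>
    ((sc u.1 v.2 w.2 + sc v.1 u.2 w.2 + sc w.1 u.2 v.2 : ℤ) : ℚ)

theorem map_zipIdx {α β : Type} (F : List α) (f : α × ℕ → β) :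
    F.zipIdx.map f = List.ofFn fun i : Fin F.length => f (F[i.1], i) := by
  apply List.ext_getElem <;> simp

theorem arr_eq (F : List QF) : arr F = listOf (symT F) := by
  simp only [arr, map_zipIdx]
  rfl

section pt

variable {α : Type} [N487b59b3 α]

@[fun_prop] theorem sc_PT {q : α → QF} {j k : α → ℕ} (hq : PT q) (hj : PT j) (hk : PT k) :
    PT (fun a => sc (q a) (j a) (k a)) := by
  unfold sc; fun_prop

theorem arr_PT {F : α → List QF} (hF : PT F) : PT (fun a => arr (F a)) := by
  unfold arr; fun_prop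

theorem scale_PT {E : α → List QF} (hE : PT E) : PT (fun a => scale (E a)) := by
  unfold scale
  exact PT.natCastInt (PT.natAdd (PT.natMul (PT.const 3) (by fun_prop)) (PT.const 1))

theorem slices_PT {n d m : α → Un} {D : α → ℤ} {E : α → List QF} (hn : PT n) (hd : PT d)
    (hm : PT m) (hD : PT D) (hE : PT E) :
    PT (fun a => slices (n a).n (d a).n (m a).n (D a) (E a)) := by
  unfold slices; fun_prop

theorem sl_PT {n : α → Un} {E : α → List QF} (hn : PT n) (hE : PT E) :
    PT (fun a => sl (n a).n (E a)) :=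
  slices_PT (d := fun a => ((n a).add ⟨2⟩).add (ulen (E a)))
    (m := fun a => (ulen (E a)).add ⟨1⟩) hn (by fun_prop) (by fun_prop) (scale_PT hE) hE

end pt

/-- The system of quadrics. -/
def quad (ts : List (ℕ × ℤ)) : List QF := hom (redN ts).n (redK ts).n (system ts)

/-- The reduction. -/
def red3 (ts : List (ℕ × ℤ)) : List (List (List ℚ)) × ℚ :=
  (arr (sl (redM ts).n (quad ts)), ((64 * scale (quad ts) : ℤ) : ℚ))

theorem red3_PT : PT red3 := by
  have h0 := PT.system'
  have h1 : PT redN := by unfold redN; fun_prop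
  have h2 : PT redK := by unfold redK; fun_prop
  have h3 : PT redM := by unfold redM; fun_prop
  have h4 : PT quad := PT.hom' h1 h2 h0
  exact PT.prodMk (arr_PT (sl_PT h3 h4)) (PT.intCastRat (PT.intMul (PT.const 64) (scale_PT h4)))

theorem atsv_enc {d : ℕ} (T : Fin d → Fin d → Fin d → ℚ) (σ : ℚ)
    (h : ATSV (bitEncode (listOf T, σ)) = true) :
    ∃ τ : ℝ, |τ - σ| ≤ σ / 50 ∧ IsSingularValue T τ := by
  simp only [ATSV, decide_eq_true_eq] at h
  obtain ⟨d', T', σ', h, -, h'⟩ := h
  obtain ⟨h1, h2⟩ := Prod.mk.inj (bitEncode_injective h)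
  have hd : d = d' := by simpa [listOf] using congrArg List.length h1
  subst hd h2
  have : T = T' := by
    funext i j k
    exact congrFun (List.ofFn_injective (congrFun (List.ofFn_injective
      (congrFun (List.ofFn_injective h1) i)) j)) k
  rw [this]; exact h'

theorem red3_spec (ts : List (ℕ × ℤ)) :
    (ETR (bitEncode ts) = true → SEV (bitEncode (red3 ts)) = true) ∧
    (ATSV (bitEncode (red3 ts)) = true → ETR (bitEncode ts) = true) := by
  have h1 : Bdd (redN ts).n (system ts) := system_bdd ts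
  have h2 : Bdd (redM ts).n (quad ts) := hom_bdd h1
  have e : ETR (bitEncode ts) = true ↔ Proj (redM ts).n (quad ts) := by
    rw [etr_enc, ← system_iff]
    exact aff_iff_proj (Nat.succ_pos _) h1 (lt_two_pow_sz _).le rfl
  rw [e, red3, arr_eq]
  constructor
  · intro h
    simp only [SEV, decide_eq_true_eq]
    refine ⟨_, _, _, rfl, symT_12 _, symT_23 _, ?_, ?_⟩
    · have := scale_pos (quad ts)
      positivity
    · push_cast
      exact eigen_of_proj h2 h
  · intro h
    obtain ⟨τ, h3, h4⟩ := atsv_enc _ _ h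
    push_cast at h3
    exact proj_of_singular h2 h3 h4

theorem etr_le_gap (L : N68a2faeb.DecisionProblem) (h1 : ∀ s, SEV s = true → L s = true)
    (h2 : ∀ s, L s = true → ATSV s = true) : N793a5b8e.ManyOneReducible ETR L := by
  refine manyOne_of_PT (Chk.nat.prod Chk.int).list red3_PT (red3 []) ?_ ?_ ?_
  · rw [Bool.eq_false_iff]
    intro h
    obtain ⟨φ, hφ, -⟩ := (etr_enc _).1 ((red3_spec []).2 (h2 _ h))
    have := (wf_iff []).2 ⟨φ, hφ⟩
    simp [wf] at this
  · intro s hs
    simp only [ETR, decide_eq_true_eq] at hs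
    obtain ⟨φ, h, -⟩ := hs
    exact ⟨_, h.symm⟩
  · intro ts
    exact Bool.eq_iff_iff.2 ⟨fun h => h1 _ ((red3_spec ts).1 h), fun h => (red3_spec ts).2 (h2 _ h)⟩

theorem sev_sub_atsv (s : List Bool) (h : SEV s = true) : ATSV s = true := by
  simp only [SEV, ATSV, decide_eq_true_eq] at h ⊢
  obtain ⟨d, T, σ, e, s1, s2, hσ, x, hx, h⟩ := h
  refine ⟨d, T, σ, e, hσ, σ, by rw [sub_self, abs_zero]; positivity, x, x, x, hx, hx, hx, h,
    fun j => ?_, fun k => ?_⟩
  · simp only [fun i k => s1 i j k]; exact h j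
  · simp only [fun i j => (s2 i j k).trans (s1 i k j)]; exact h k

end Pool.Agent.Lib.MP_acf5a6_lc.Gp
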