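import Pool.Agent.Lib.MP_acf5a6_lc.Gp.Defs
import Pool.Agent.Lib.MP_acf5a6_lc.Tensor

/-!
Symmetric tensors: large singular values are eigenvalues, and the tensor of a list of slices.
-/

set_option autoImplicit false

namespace Pool.Agent.Lib.MP_acf5a6_lc.Gp

open Finset

section

variable {d : ℕ} {T : Fin d → Fin d → Fin d → ℚ}

/-- The trilinear form of a tensor. -/
def tr (T : Fin d → Fin d → Fin d → ℚ) (a b c : Fin d → ℝ) : ℝ :=
  ∑ i, ∑ j, ∑ k, (T i j k : ℝ) * a i * b j * c k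

theorem tr_weak {b c x : Fin d → ℝ} {τ : ℝ} :
    (∀ i, ∑ j, ∑ k, (T i j k : ℝ) * b j * c k = τ * x i) ↔
      ∀ a, tr T a b c = τ * ∑ i, a i * x i := by
  have e : ∀ a, tr T a b c = ∑ i, a i * ∑ j, ∑ k, (T i j k : ℝ) * b j * c k := fun a => by
    simp only [tr, mul_sum]
    exact sum_congr rfl fun i _ => sum_congr rfl fun j _ => sum_congr rfl fun k _ => by ring
  constructor
  · intro h a
    rw [e, mul_sum]
    exact sum_congr rfl fun i _ => by rw [h]; ring
  · intro h i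
    simpa [e, Pi.single_apply] using h (Pi.single i 1)

theorem tr_12 (h : ∀ i j k, T i j k = T j i k) (a b c : Fin d → ℝ) :
    tr T a b c = tr T b a c := by
  rw [tr, sum_comm]
  exact sum_congr rfl fun j _ => sum_congr rfl fun i _ => sum_congr rfl fun k _ => by
    rw [h i j k]; ring

theorem tr_23 (h : ∀ i j k, T i j k = T i k j) (a b c : Fin d → ℝ) :
    tr T a b c = tr T a c b := by
  refine sum_congr rfl fun i _ => ?_
  rw [sum_comm]
  exact sum_congr rfl fun k _ => sum_congr rfl fun j _ => by rw [h i j k]; ring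

theorem tr_lin (a b a' c : Fin d → ℝ) (s t : ℝ) :
    tr T (fun i => s * a i + t * a' i) b c = s * tr T a b c + t * tr T a' b c := by
  simp only [tr, mul_sum, ← sum_add_distrib]
  exact sum_congr rfl fun i _ => sum_congr rfl fun j _ => sum_congr rfl fun k _ => by ring

theorem sign (h1 : ∀ i j k, T i j k = T j i k) {x y z : Fin d → ℝ} {τ c : ℝ} (hc : c < τ)
    (hx : ∀ a, tr T a y z = τ * ∑ i, a i * x i) (hy : ∀ a, tr T a x z = τ * ∑ i, a i * y i)
    (hz : ∃ ε : ℝ, ε ^ 2 = 1 ∧ ∀ w, -(c * ∑ i, w i ^ 2) ≤ ε * tr T w w z) :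
    ∃ ε : ℝ, ε ^ 2 = 1 ∧ ∀ i, x i = ε * y i := by
  obtain ⟨ε, he, h⟩ := hz
  refine ⟨ε, he, fun i => ?_⟩
  obtain ⟨w, hw⟩ : ∃ w : Fin d → ℝ, w = fun i => 1 * x i + -ε * y i := ⟨_, rfl⟩
  have e1 : tr T w w z = 1 * tr T x w z + -ε * tr T y w z := by
    conv_lhs => arg 2; rw [hw]
    exact tr_lin _ _ _ _ _ _
  have e2 : ε * (∑ i, w i * y i - ε * ∑ i, w i * x i) = -∑ i, w i ^ 2 := by
    simp only [mul_sum, ← sum_sub_distrib, ← sum_neg_distrib]
    refine sum_congr rfl fun i _ => ?_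
    simp only [hw]
    linear_combination (-(x i - ε * y i) * x i) * he
  have e3 := h w
  rw [e1, tr_12 h1 x w, tr_12 h1 y w, hx, hy] at e3
  have e4 : 0 ≤ ∑ i, w i ^ 2 := by positivity
  have e5 : ∑ i, w i ^ 2 = 0 := by
    have : (τ - c) * ∑ i, w i ^ 2 ≤ 0 := by linear_combination e3 + τ * e2
    nlinarith
  have e6 := (sum_eq_zero_iff_of_nonneg fun i _ => sq_nonneg (w i)).1 e5 i (mem_univ i)
  rw [hw] at e6
  linarith [pow_eq_zero_iff two_ne_zero |>.1 e6]

theorem eigen_of_singular (h1 : ∀ i j k, T i j k = T j i k) (h2 : ∀ i j k, T i j k = T i k j)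
    {τ c : ℝ} (hc : c < τ) (H : ∀ z : Fin d → ℝ, ∑ i, z i ^ 2 = 1 →
      ∃ ε : ℝ, ε ^ 2 = 1 ∧ ∀ w, -(c * ∑ i, w i ^ 2) ≤ ε * tr T w w z)
    (h : IsSingularValue T τ) : IsEigenvalue T τ := by
  obtain ⟨x, y, z, hx, hy, hz, a1, a2, a3⟩ := h
  have b1 := tr_weak.1 a1
  have b2 := (tr_weak (T := T) (b := x) (c := z) (x := y) (τ := τ)).1 fun j => by
    simpa only [fun i k => h1 j i k] using a2 j
  have b3 := (tr_weak (T := T) (b := x) (c := y) (x := z) (τ := τ)).1 fun k => by
    simpa only [fun i j => (h1 k i j).trans (h2 i k j)] using a3 k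
  obtain ⟨s, hs, e1⟩ := sign h1 hc b1 b2 (H z hz)
  obtain ⟨t, ht, e2⟩ := sign h1 hc (x := z) (y := y) (z := x) (fun a => by rw [tr_23 h2, b3])
    (fun a => by rw [tr_23 h2, b2]) (H x hx)
  refine ⟨fun i => s * t * y i, ?_, fun i => ?_⟩
  · simp only [mul_pow, hs, ht, one_mul, hy]
  · have e := a1 i
    simp only [e1, e2] at e
    have e' : ∑ j, ∑ k, (T i j k : ℝ) * (s * t * y j) * (s * t * y k) =
        t * ∑ j, ∑ k, (T i j k : ℝ) * y j * (t * y k) := by
      simp only [mul_sum]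
      refine sum_congr rfl fun j _ => sum_congr rfl fun k _ => ?_
      linear_combination ((T i j k : ℝ) * y j * y k * t ^ 2) * hs
    rw [e', e]
    ring

end

/-- The symmetrised coefficient. -/
def sc (q : QF) (j k : ℕ) : ℤ := co q j k + co q k j

/-- The symmetrised form. -/
def sv (q : QF) (b c : ℕ → ℝ) : ℝ := ev q b c + ev q c b

/-- The symmetric tensor with the given slices. -/
def symT (F : List QF) (i j k : Fin F.length) : ℚ :=
  ((sc F[i.1] j k + sc F[j.1] i k + sc F[k.1] i j : ℤ) : ℚ)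

/-- One third of the trilinear form of `symT`. -/
def pc (F : List QF) (a b c : ℕ → ℝ) : ℝ := ∑ i ∈ range F.length, a i * sv (F.getD i []) b c

theorem sc_comm (q : QF) (j k : ℕ) : sc q j k = sc q k j := add_comm _ _

theorem symT_12 (F : List QF) (i j k) : symT F i j k = symT F j i k := by
  rw [symT, symT, sc_comm F[k.1], add_comm (sc F[i.1] _ _)]

theorem symT_23 (F : List QF) (i j k) : symT F i j k = symT F i k j := by
  rw [symT, symT, sc_comm F[i.1], add_right_comm]

theorem sv_eq {d : ℕ} {q : QF} (hq : ∀ t ∈ q, t.2.1 < d ∧ t.2.2 < d) (b c : ℕ → ℝ) :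
    sv q b c = ∑ j : Fin d, ∑ k : Fin d, (sc q j k : ℝ) * b j * c k := by
  rw [sv, ev_eq_co hq, ev_eq_co hq, sum_product, sum_product, sum_comm (f := fun j k =>
    (co q j k : ℝ) * (c j * b k)), ← sum_add_distrib,
    Fin.sum_univ_eq_sum_range (fun j => ∑ k : Fin d, (sc q j k : ℝ) * b j * c k)]
  refine sum_congr rfl fun j _ => ?_
  rw [← sum_add_distrib, Fin.sum_univ_eq_sum_range (fun k => (sc q j k : ℝ) * b j * c k)]
  refine sum_congr rfl fun k _ => ?_
  rw [sc]
  push_cast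
  ring

theorem pc_eq {F : List QF} (hF : Bdd F.length F) (a b c : ℕ → ℝ) :
    pc F a b c = ∑ i : Fin F.length, ∑ j : Fin F.length, ∑ k : Fin F.length,
      (sc F[i.1] j k : ℝ) * a i * b j * c k := by
  rw [pc, ← Fin.sum_univ_eq_sum_range (fun i => a i * sv (F.getD i []) b c)]
  refine sum_congr rfl fun i _ => ?_
  rw [List.getD_eq_getElem _ _ i.2, sv_eq (hF _ (List.getElem_mem _))]
  simp only [mul_sum]
  exact sum_congr rfl fun j _ => sum_congr rfl fun k _ => by ring

theorem tr_symT {F : List QF} (hF : Bdd F.length F) (a b c : ℕ → ℝ) :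
    tr (symT F) (fun i => a i) (fun i => b i) (fun i => c i) =
      pc F a b c + pc F b a c + pc F c a b := by
  have e2 : pc F b a c = ∑ i : Fin F.length, ∑ j : Fin F.length, ∑ k : Fin F.length,
      (sc F[j.1] i k : ℝ) * a i * b j * c k := by
    rw [pc_eq hF, sum_comm]
    exact sum_congr rfl fun i _ => sum_congr rfl fun j _ => sum_congr rfl fun k _ => by ring
  have e3 : pc F c a b = ∑ i : Fin F.length, ∑ j : Fin F.length, ∑ k : Fin F.length,
      (sc F[k.1] i j : ℝ) * a i * b j * c k := by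
    rw [pc_eq hF, sum_comm]
    refine sum_congr rfl fun i _ => ?_
    rw [sum_comm]
    exact sum_congr rfl fun j _ => sum_congr rfl fun k _ => by ring
  rw [e2, e3, pc_eq hF, tr]
  simp only [← sum_add_distrib, symT]
  refine sum_congr rfl fun i _ => sum_congr rfl fun j _ => sum_congr rfl fun k _ => ?_
  push_cast
  ring

end Pool.Agent.Lib.MP_acf5a6_lc.Gp
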